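import Mathlib
import Pool.Agent.H60.TMFib2

namespace Pool.Agent.Results.MP_7d59ed_nt.Limit

open Pool.Agent.H60.TMFib Filter Topology

/-- The limit `g = lim |h_n| ^ {1 / n}` exists, and `1.152 < g < 1.153`. -/
theorem result : ∃ g : ℝ, 1.152 < g ∧ g < 1.153 ∧
    Tendsto (fun n : ℕ => |(h n : ℝ)| ^ (1 / (n : ℝ))) atTop (𝓝 g) :=
  limit

end Pool.Agent.Results.MP_7d59ed_nt.Limit
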